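import Pool.Agent.Lib_helper64.OPS.Glue

/-!
# MP_859019, states that differ by a pure state: the maximum principle applied to the defect

`W(y) = (φφᵀ + mu diag be, diag be + l φφᵀ)`.
-/

set_option autoImplicit false
set_option linter.unusedSectionVars false

open scoped BigOperators ComplexOrder Kronecker MatrixOrder Topology
open MeasureTheory Set Matrix Filter

namespace Pool.Agent.OPS

open Pool.Agent.RC Pool.Agent.LDK Pool.Agent.LDK.DUAL Pool.Agent.QB

variable {m ι : Type} [Fintype m] [DecidableEq m] [Fintype ι] [DecidableEq ι]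

/-- `Tr (c φφᵀ + d diag be)^p` -/
noncomputable def tcd (p c d : ℝ) (be y : ι → ℝ) : ℝ :=
  tp p ((d : ℂ) • Matrix.diagonal (fun j => (be j : ℂ)) + (c : ℂ) • phiM y)

theorem smul_diag (d : ℝ) (be : ι → ℝ) :
    (d : ℂ) • Matrix.diagonal (fun j => (be j : ℂ)) =
      Matrix.diagonal (fun j => ((d * be j : ℝ) : ℂ)) := by
  ext i j
  by_cases h : i = j
  · subst h; simp
  · simp [h]

theorem tcd_eq_tc (p c d : ℝ) (be y : ι → ℝ) :
    tcd p c d be y = tc p c (fun j => d * be j) y := by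
  unfold tcd tc
  rw [smul_diag]

theorem tcd_eq_hPQ (p c d : ℝ) (be y : ι → ℝ) :
    tcd p c d be y = hPQ p (one1 c) (one1 d) be y := by
  rw [tcd_eq_tc, tc_eq_hPQ]
  unfold hPQ
  congr 1
  unfold XX one1
  congr 1
  ext a b
  obtain ⟨a1, a2⟩ := a
  obtain ⟨b1, b2⟩ := b
  by_cases h : a2 = b2
  · subst h
    simp [Matrix.kroneckerMap_apply]
  · simp [Matrix.kroneckerMap_apply, h]

theorem scal_op2 (hDer : DerTarget) {p c d : ℝ} (hp : 3 < p) (hc : 0 ≤ c) (hd : 0 ≤ d)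
    {be : ι → ℝ} {j0 : ι} (h0 : be j0 = 0)
    (hb : ∀ j, j ≠ j0 → 0 < be j) {y : ι → ℝ} (hy : ∀ j, 0 < y j) :
    ∃ (D2 : ι → ℝ) (D1 : ℝ), (∀ j, C2at (fun x => tcd p c d be (y + Pi.single j x)) (D2 j)) ∧
      HasDerivAt (fun x => tcd p c d be (y + Pi.single j0 x)) D1 0 ∧
      ∑ j, y j * D2 j - (p - 1) * D1 = 0 := by
  rcases hd.eq_or_lt with h | h
  · subst h
    -- `d = 0`
    have hS : 0 < ∑ j, y j := Finset.sum_pos (fun j _ => hy j) ⟨j0, Finset.mem_univ j0⟩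
    set S : ℝ := ∑ j, y j with hSdef
    have hev : ∀ j, ∀ᶠ x in 𝓝 (0 : ℝ), ∀ i, 0 ≤ (y + Pi.single j x : ι → ℝ) i := by
      intro j
      have e1 : ∀ᶠ x in 𝓝 (0 : ℝ), -(y j) < x := Ioi_mem_nhds (by linarith [hy j])
      filter_upwards [e1] with x h3 i
      by_cases h : i = j
      · subst h; simp; linarith
      · simp [Pi.single_eq_of_ne h, (hy i).le]
    have e : ∀ z : ι → ℝ, (∀ i, 0 ≤ z i) → tcd p c 0 be z = c ^ p * (∑ i, z i) ^ p := by
      intro z hz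
      unfold tcd
      rw [Complex.ofReal_zero, zero_smul, zero_add, tp_smul (phiM_psd z) hc,
        tp_phiM (by linarith) hz]
    have hsum : ∀ j x, ∑ i, (y + Pi.single j x : ι → ℝ) i = S + x := fun j x =>
      Pool.Agent.Lib_helper69.OPS.sum_single y j x
    refine ⟨fun _ => c ^ p * (p * (p - 1) * S ^ (p - 2)), c ^ p * (p * S ^ (p - 1)),
      fun j => ?_, ?_, ?_⟩
    · refine (C2at.const_mul (c ^ p) (Pool.Agent.Lib_helper69.OPS.C2at_shift hS p)).congr ?_
      filter_upwards [hev j] with x hx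
      rw [e _ hx, hsum]
    · refine (HasDerivAt.const_mul (c ^ p)
        (Pool.Agent.Lib_helper69.OPS.hasDeriv_shift hS p)).congr_of_eventuallyEq ?_
      filter_upwards [hev j0] with x hx
      rw [e _ hx, hsum]
    · have h5 : S * S ^ (p - 2) = S ^ (p - 1) := by
        have e : S ^ (p - 1) = S ^ (1 + (p - 2)) := by congr 1; ring
        rw [e, Real.rpow_add hS, Real.rpow_one]
      rw [← Finset.sum_mul, ← hSdef]
      have : S * (c ^ p * (p * (p - 1) * S ^ (p - 2))) =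
          c ^ p * (p * (p - 1)) * (S * S ^ (p - 2)) := by ring
      rw [this, h5]
      ring
  · have hbe' : ∀ j, j ≠ j0 → 0 < d * be j := fun j hj => mul_pos h (hb j hj)
    have h0' : d * be j0 = 0 := by rw [h0, mul_zero]
    simp only [tcd_eq_tc]
    exact scal_op hDer (p := p) (be := fun j => d * be j) hc h0' hbe' hy

/-! ### the defect in the coordinates `y` -/

theorem JV_y2 {p : ℝ} (M N : Matrix m m ℂ) (l mu : ℝ) (be y : ι → ℝ) :
    JV p M N (phiM y + (mu : ℂ) • Matrix.diagonal (fun j => (be j : ℂ)))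
      (Matrix.diagonal (fun j => (be j : ℂ)) + (l : ℂ) • phiM y) =
      (2 ^ (p - 1) - 1) * (hPQ p (M + (l : ℂ) • N) (N + (mu : ℂ) • M) be y +
        hPQ p (N + (l : ℂ) • M) (M + (mu : ℂ) • N) be y) +
      ((tp p (M + N) - tp p M - tp p N) - (2 ^ (p - 1) - 1) * (tp p M + tp p N)) *
        tcd p 1 mu be y +
      ((tp p (M + N) - tp p M - tp p N) - (2 ^ (p - 1) - 1) * (tp p M + tp p N)) *
        tcd p l 1 be y +
      (-(tp p (M + N) - tp p M - tp p N)) * tcd p (1 + l) (1 + mu) be y := by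
  have e1 : M ⊗ₖ (phiM y + (mu : ℂ) • Matrix.diagonal (fun j => (be j : ℂ))) +
      N ⊗ₖ (Matrix.diagonal (fun j => (be j : ℂ)) + (l : ℂ) • phiM y) =
      XX (M + (l : ℂ) • N) (N + (mu : ℂ) • M) be y := by
    unfold XX
    ext i j
    simp only [Matrix.add_apply, Matrix.smul_apply, Matrix.kroneckerMap_apply, smul_eq_mul]
    ring
  have e2 : M ⊗ₖ (Matrix.diagonal (fun j => (be j : ℂ)) + (l : ℂ) • phiM y) +
      N ⊗ₖ (phiM y + (mu : ℂ) • Matrix.diagonal (fun j => (be j : ℂ))) =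
      XX (N + (l : ℂ) • M) (M + (mu : ℂ) • N) be y := by
    unfold XX
    ext i j
    simp only [Matrix.add_apply, Matrix.smul_apply, Matrix.kroneckerMap_apply, smul_eq_mul]
    ring
  have e3 : (phiM y + (mu : ℂ) • Matrix.diagonal (fun j => (be j : ℂ))) +
      (Matrix.diagonal (fun j => (be j : ℂ)) + (l : ℂ) • phiM y) =
      ((1 + mu : ℝ) : ℂ) • Matrix.diagonal (fun j => (be j : ℂ)) +
        ((1 + l : ℝ) : ℂ) • phiM y := by
    push_cast; module
  have e4 : tp p (phiM y + (mu : ℂ) • Matrix.diagonal (fun j => (be j : ℂ))) =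
      tcd p 1 mu be y := by
    unfold tcd
    rw [Complex.ofReal_one, one_smul, add_comm]
  have e5 : tp p (Matrix.diagonal (fun j => (be j : ℂ)) + (l : ℂ) • phiM y) =
      tcd p l 1 be y := by
    unfold tcd
    rw [Complex.ofReal_one, one_smul]
  unfold JV
  rw [e1, e2, e3, e4, e5]
  unfold hPQ
  have e6 : tp p (((1 + mu : ℝ) : ℂ) • Matrix.diagonal (fun j => (be j : ℂ)) +
        ((1 + l : ℝ) : ℂ) • phiM y) = tcd p (1 + l) (1 + mu) be y := rfl
  rw [e6]
  ring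

theorem tcd_bounds {p c d : ℝ} (hp : 1 < p) (hc : 0 ≤ c) (hd : 0 ≤ d) {be : ι → ℝ}
    (hbe : ∀ j, 0 ≤ be j) {y : ι → ℝ} (hy : ∀ j, 0 ≤ y j) :
    0 ≤ tcd p c d be y - c ^ p * (∑ j, y j) ^ p ∧
    tcd p c d be y - c ^ p * (∑ j, y j) ^ p ≤
      (p * (∑ j, d * be j) * (c + ∑ j, d * be j) ^ (p - 1)) * (1 + ∑ j, y j) ^ (p - 1) := by
  obtain ⟨h1, h2⟩ := tc_bounds (p := p) (c := c) hp hc (be := fun j => d * be j)
    (fun j => mul_nonneg hd (hbe j)) hy
  rw [tcd_eq_tc]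
  constructor <;> linarith

/-- the maximum principle applied to the defect -/
theorem glue2 {p : ℝ} (hp : 3 < p) (hDer : DerTarget) {M N : Matrix m m ℂ} (hM : M.PosSemidef)
    (hN : N.PosSemidef) {l mu : ℝ} (hl : 0 ≤ l) (hmu : 0 ≤ mu) {be : ι → ℝ} {j0 : ι}
    (h0 : be j0 = 0) (hb : ∀ j, j ≠ j0 → 0 < be j)
    (h1 : OpOK p (M + (l : ℂ) • N) (N + (mu : ℂ) • M) be j0)
    (h2 : OpOK p (N + (l : ℂ) • M) (M + (mu : ℂ) • N) be j0)
    (hface : ∀ y : ι → ℝ, (∀ j, 0 ≤ y j) → (∃ j, y j = 0) →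
      0 ≤ JV p M N (phiM y + (mu : ℂ) • Matrix.diagonal (fun j => (be j : ℂ)))
        (Matrix.diagonal (fun j => (be j : ℂ)) + (l : ℂ) • phiM y)) :
    ∀ y : ι → ℝ, (∀ j, 0 ≤ y j) →
      0 ≤ JV p M N (phiM y + (mu : ℂ) • Matrix.diagonal (fun j => (be j : ℂ)))
        (Matrix.diagonal (fun j => (be j : ℂ)) + (l : ℂ) • phiM y) := by
  have hbe : ∀ j, 0 ≤ be j := by
    intro j
    by_cases h : j = j0
    · rw [h, h0]
    · exact (hb j h).le
  have hMl : (M + (l : ℂ) • N).PosSemidef := hM.add (Pool.Agent.Lib_helper19.QS.psd_smul hN hl)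
  have hNl : (N + (l : ℂ) • M).PosSemidef := hN.add (Pool.Agent.Lib_helper19.QS.psd_smul hM hl)
  have hMm : (M + (mu : ℂ) • N).PosSemidef :=
    hM.add (Pool.Agent.Lib_helper19.QS.psd_smul hN hmu)
  have hNm : (N + (mu : ℂ) • M).PosSemidef :=
    hN.add (Pool.Agent.Lib_helper19.QS.psd_smul hM hmu)
  have hq : 1 ≤ (2 : ℝ) ^ (p - 1) := Real.one_le_rpow (by norm_num) (by linarith)
  have hcq := cq_JS hp hM hN hl
  set g : ℝ := tp p (M + N) - tp p M - tp p N with hg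
  set s : ℝ := tp p M + tp p N with hs
  set k : ℝ := (2 : ℝ) ^ (p - 1) - 1 with hk
  have hk0 : 0 ≤ k := by linarith
  have hs0 : 0 ≤ s := by
    have h3 : ∀ X : Matrix m m ℂ, X.PosSemidef → 0 ≤ tp p X := by
      intro X hX
      unfold tp trF
      rw [dif_pos hX.1]
      exact Finset.sum_nonneg fun i _ => Real.rpow_nonneg (hX.eigenvalues_nonneg i) _
    exact add_nonneg (h3 M hM) (h3 N hN)
  have hJ : ∀ y : ι → ℝ,
      JV p M N (phiM y + (mu : ℂ) • Matrix.diagonal (fun j => (be j : ℂ)))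
        (Matrix.diagonal (fun j => (be j : ℂ)) + (l : ℂ) • phiM y) =
      k * (hPQ p (M + (l : ℂ) • N) (N + (mu : ℂ) • M) be y +
        hPQ p (N + (l : ℂ) • M) (M + (mu : ℂ) • N) be y) +
      (g - k * s) * tcd p 1 mu be y + (g - k * s) * tcd p l 1 be y +
      (-g) * tcd p (1 + l) (1 + mu) be y :=
    fun y => JV_y2 M N l mu be y
  have hcont : ∀ c d : ℝ, 0 ≤ c → 0 ≤ d → Continuous fun y : ι → ℝ => tcd p c d be y := by
    intro c d hc hd
    simp only [tcd_eq_hPQ]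
    exact cont_hPQ (by linarith) (one1_psd hc) (one1_psd hd) hbe
  set K : ℝ → ℝ → ℝ := fun c d => p * (∑ j, d * be j) * (c + ∑ j, d * be j) ^ (p - 1) with hK
  refine Pool.Agent.Lib_helper69.OPS.mp_orthant j0 (p := p) (by linarith) _ ?_ hface
    ((k * s + |g|) * K 1 mu + (k * s + |g|) * K l 1 + |g| * K (1 + l) (1 + mu)) ?_ ?_
  · -- continuity
    have hc1 : Continuous fun y : ι → ℝ =>
        k * (hPQ p (M + (l : ℂ) • N) (N + (mu : ℂ) • M) be y +
          hPQ p (N + (l : ℂ) • M) (M + (mu : ℂ) • N) be y) +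
        (g - k * s) * tcd p 1 mu be y + (g - k * s) * tcd p l 1 be y +
        (-g) * tcd p (1 + l) (1 + mu) be y := by
      have a1 := cont_hPQ (p := p) (by linarith) hMl hNm hbe
      have a2 := cont_hPQ (p := p) (by linarith) hNl hMm hbe
      exact (((continuous_const.mul (a1.add a2)).add (continuous_const.mul
        (hcont 1 mu zero_le_one hmu))).add
        (continuous_const.mul (hcont l 1 hl zero_le_one))).add
        (continuous_const.mul (hcont (1 + l) (1 + mu) (by linarith) (by linarith)))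
    exact hc1.continuousOn.congr fun y hy => hJ y
  · -- growth
    intro y hy
    have hS : 0 ≤ ∑ j, y j := Finset.sum_nonneg fun j _ => hy j
    rw [hJ y]
    have b1 := hPQ_lower (p := p) (by linarith) hMl hNm hbe hy
    have b2 := hPQ_lower (p := p) (by linarith) hNl hMm hbe hy
    obtain ⟨b3, b4⟩ := tcd_bounds (p := p) (by linarith) hl zero_le_one hbe hy
    obtain ⟨b5, b6⟩ := tcd_bounds (p := p) (c := 1 + l) (d := 1 + mu) (by linarith)
      (by linarith) (by linarith) hbe hy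
    obtain ⟨b9, b10⟩ := tcd_bounds (p := p) (c := 1) (d := mu) (by linarith)
      zero_le_one hmu hbe hy
    have hSp : 0 ≤ (∑ j, y j) ^ p := Real.rpow_nonneg hS _
    have hE : 0 ≤ (1 + ∑ j, y j) ^ (p - 1) := Real.rpow_nonneg (by linarith) _
    have b7 := mul_nonneg hcq hSp
    have b8 := mul_le_mul_of_nonneg_left (add_le_add b1 b2) hk0
    have eK1 : K l 1 = p * (∑ j, 1 * be j) * (l + ∑ j, 1 * be j) ^ (p - 1) := rfl
    have eK2 : K (1 + l) (1 + mu) =
      p * (∑ j, (1 + mu) * be j) * (1 + l + ∑ j, (1 + mu) * be j) ^ (p - 1) := rfl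
    have eK3 : K 1 mu = p * (∑ j, mu * be j) * (1 + ∑ j, mu * be j) ^ (p - 1) := rfl
    rw [← eK1] at b4
    rw [← eK2] at b6
    rw [← eK3] at b10
    rw [Real.one_rpow, one_mul] at b9 b10
    have hab : ∀ z B : ℝ, 0 ≤ z → z ≤ B → |g * z| ≤ |g| * B := by
      intro z B hz hB
      rw [abs_mul, abs_of_nonneg hz]
      exact mul_le_mul_of_nonneg_left hB (abs_nonneg g)
    have v1 := (abs_le.1 (hab _ _ b3 b4)).1
    have v2 := (abs_le.1 (hab _ _ b5 b6)).2
    have v3 := mul_le_mul_of_nonneg_left b4 (mul_nonneg hk0 hs0)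
    have v4 := (abs_le.1 (hab _ _ b9 b10)).1
    have v5 := mul_le_mul_of_nonneg_left b10 (mul_nonneg hk0 hs0)
    generalize hPQ p (M + (l : ℂ) • N) (N + (mu : ℂ) • M) be y = x1 at *
    generalize hPQ p (N + (l : ℂ) • M) (M + (mu : ℂ) • N) be y = x2 at *
    generalize tcd p l 1 be y = x3 at *
    generalize tcd p (1 + l) (1 + mu) be y = x4 at *
    generalize tcd p 1 mu be y = x5 at *
    generalize (∑ j, y j) ^ p = Sp at *
    generalize (1 + ∑ j, y j) ^ (p - 1) = E at *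
    generalize tp p (M + (l : ℂ) • N) = t1 at *
    generalize tp p (N + (l : ℂ) • M) = t2 at *
    generalize l ^ p = lp at *
    generalize (1 + l) ^ p = lq at *
    generalize K l 1 = K1 at *
    generalize K (1 + l) (1 + mu) = K2 at *
    generalize K 1 mu = K3 at *
    generalize |g| = ag at *
    linarith [b7, b8, v1, v2, v3, v4, v5]
  · -- the operator
    intro y hy
    obtain ⟨a2, a1, ha, ha', ha''⟩ := h1 y hy
    obtain ⟨b2, b1, hb1, hb', hb''⟩ := h2 y hy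
    obtain ⟨c2, c1, hc, hc', hc''⟩ := scal_op2 hDer (p := p) (c := l) (d := 1) hp hl
      zero_le_one h0 hb hy
    obtain ⟨d2, d1, hd, hd', hd''⟩ := scal_op2 hDer (p := p) (c := 1 + l) (d := 1 + mu) hp
      (by linarith) (by linarith) h0 hb hy
    obtain ⟨f2, f1, hf, hf', hf''⟩ := scal_op2 hDer (p := p) (c := 1) (d := mu) hp
      zero_le_one hmu h0 hb hy
    refine ⟨fun j => k * (a2 j + b2 j) + (g - k * s) * f2 j +
      (g - k * s) * c2 j + (-g) * d2 j, k * (a1 + b1) + (g - k * s) * f1 +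
      (g - k * s) * c1 + (-g) * d1, fun j => ?_, ?_, ?_⟩
    · have h3 := (((C2at.const_mul k ((ha j).add (hb1 j))).add (C2at.const_mul (g - k * s)
        (hf j))).add (C2at.const_mul (g - k * s)
        (hc j))).add (C2at.const_mul (-g) (hd j))
      refine h3.congr (Eventually.of_forall fun x => ?_)
      exact (hJ _).symm
    · have h3 := (((HasDerivAt.const_mul k (ha'.add hb')).add (HasDerivAt.const_mul (g - k * s)
        hf')).add (HasDerivAt.const_mul (g - k * s)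
        hc')).add (HasDerivAt.const_mul (-g) hd')
      refine h3.congr_of_eventuallyEq (Eventually.of_forall fun x => ?_)
      exact hJ _
    · have e1 : ∑ j, y j * (k * (a2 j + b2 j) + (g - k * s) * f2 j +
          (g - k * s) * c2 j + (-g) * d2 j) =
          k * (∑ j, y j * a2 j) + k * (∑ j, y j * b2 j) +
          (g - k * s) * (∑ j, y j * f2 j) + (g - k * s) * (∑ j, y j * c2 j) +
          (-g) * (∑ j, y j * d2 j) := by
        simp only [Finset.mul_sum]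
        simp only [← Finset.sum_add_distrib]
        refine Finset.sum_congr rfl fun j _ => ?_
        ring
      rw [e1]
      have m1 := mul_nonneg hk0 (show 0 ≤ -(∑ j, y j * a2 j - (p - 1) * a1) by linarith)
      have m2 := mul_nonneg hk0 (show 0 ≤ -(∑ j, y j * b2 j - (p - 1) * b1) by linarith)
      have m3 : (g - k * s) * (∑ j, y j * c2 j - (p - 1) * c1) = 0 := by rw [hc'', mul_zero]
      have m4 : g * (∑ j, y j * d2 j - (p - 1) * d1) = 0 := by rw [hd'', mul_zero]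
      have m5 : (g - k * s) * (∑ j, y j * f2 j - (p - 1) * f1) = 0 := by rw [hf'', mul_zero]
      nlinarith [m1, m2, m3, m4, m5]

/-- the step of the maximum principle for pairs `(A₂ y, D₂ y)` with
`A₂ + D₂ = φφᵀ + mu diag be`, `A₂ - D₂ = diag be + l φφᵀ` -/
theorem step_strict2 {p : ℝ} (hp : 3 < p) (hDer : DerTarget) {A₁ D₁ : Matrix m m ℂ}
    (h₁ : IsPsdPair A₁ D₁) {l mu : ℝ} (hl : 0 ≤ l) (hmu : 0 ≤ mu) {be : ι → ℝ} {j0 : ι}
    (h0 : be j0 = 0) (hb : ∀ j, j ≠ j0 → 0 < be j)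
    (h1 : OpOK p ((A₁ + D₁) + (l : ℂ) • (A₁ - D₁)) ((A₁ - D₁) + (mu : ℂ) • (A₁ + D₁)) be j0)
    (h2 : OpOK p ((A₁ - D₁) + (l : ℂ) • (A₁ + D₁)) ((A₁ + D₁) + (mu : ℂ) • (A₁ - D₁)) be j0)
    (A₂ D₂ : (ι → ℝ) → Matrix ι ι ℂ) (hpair : ∀ y, IsPsdPair (A₂ y) (D₂ y))
    (hadd : ∀ y, A₂ y + D₂ y = phiM y + (mu : ℂ) • Matrix.diagonal (fun j => (be j : ℂ)))
    (hsub : ∀ y, A₂ y - D₂ y = Matrix.diagonal (fun j => (be j : ℂ)) + (l : ℂ) • phiM y)
    (hface : ∀ y : ι → ℝ, (∀ i, 0 ≤ y i) → (∃ i, y i = 0) →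
      Pool.Agent.OP.Ineq p A₁ D₁ (A₂ y) (D₂ y)) :
    ∀ y : ι → ℝ, (∀ i, 0 ≤ y i) → Pool.Agent.OP.Ineq p A₁ D₁ (A₂ y) (D₂ y) := by
  have key : ∀ y : ι → ℝ, (Pool.Agent.OP.Ineq p A₁ D₁ (A₂ y) (D₂ y) ↔
        0 ≤ JV p (A₁ + D₁) (A₁ - D₁)
          (phiM y + (mu : ℂ) • Matrix.diagonal (fun j => (be j : ℂ)))
          (Matrix.diagonal (fun j => (be j : ℂ)) + (l : ℂ) • phiM y)) := by
    intro y
    rw [ineq_iff_JV h₁ (hpair y), hadd, hsub]
  intro y hy
  rw [key]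
  exact glue2 hp hDer h₁.add h₁.sub hl hmu h0 hb h1 h2
    (fun z hz hz0 => (key z).1 (hface z hz hz0)) y hy

/-- the same for strict first pairs, from DER and POS -/
theorem step_strict2_pd {p : ℝ} (hp : 3 < p) (hDer : DerTarget) (hPos : PosTarget p)
    {A₁ D₁ : Matrix m m ℂ} (ha : (A₁ + D₁).PosDef) (hbd : (A₁ - D₁).PosDef) {l mu : ℝ}
    (hl : 0 ≤ l) (hmu : 0 ≤ mu) {be : ι → ℝ} {j0 : ι}
    (h0 : be j0 = 0) (hb : ∀ j, j ≠ j0 → 0 < be j)
    (A₂ D₂ : (ι → ℝ) → Matrix ι ι ℂ) (hpair : ∀ y, IsPsdPair (A₂ y) (D₂ y))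
    (hadd : ∀ y, A₂ y + D₂ y = phiM y + (mu : ℂ) • Matrix.diagonal (fun j => (be j : ℂ)))
    (hsub : ∀ y, A₂ y - D₂ y = Matrix.diagonal (fun j => (be j : ℂ)) + (l : ℂ) • phiM y)
    (hface : ∀ y : ι → ℝ, (∀ i, 0 ≤ y i) → (∃ i, y i = 0) →
      Pool.Agent.OP.Ineq p A₁ D₁ (A₂ y) (D₂ y)) :
    ∀ y : ι → ℝ, (∀ i, 0 ≤ y i) → Pool.Agent.OP.Ineq p A₁ D₁ (A₂ y) (D₂ y) := by
  have h₁ : IsPsdPair A₁ D₁ := by
    refine ⟨?_, hbd.posSemidef, ha.posSemidef⟩
    have e : A₁ = ((1 / 2 : ℝ) : ℂ) • ((A₁ + D₁) + (A₁ - D₁)) := by push_cast; module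
    rw [e]
    exact Pool.Agent.Lib_helper19.QS.psd_smul (ha.posSemidef.add hbd.posSemidef) (by norm_num)
  exact step_strict2 hp hDer h₁ hl hmu h0 hb
    (opOK_of hDer (by linarith) hPos (ha.add_posSemidef
      (Pool.Agent.Lib_helper19.QS.psd_smul hbd.posSemidef hl)) (hbd.add_posSemidef
      (Pool.Agent.Lib_helper19.QS.psd_smul ha.posSemidef hmu)) h0 hb)
    (opOK_of hDer (by linarith) hPos (hbd.add_posSemidef
      (Pool.Agent.Lib_helper19.QS.psd_smul ha.posSemidef hl)) (ha.add_posSemidef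
      (Pool.Agent.Lib_helper19.QS.psd_smul hbd.posSemidef hmu)) h0 hb)
    A₂ D₂ hpair hadd hsub hface

end Pool.Agent.OPS
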