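import Pool.Agent.Lib_helper64.OPS.Step
import Pool.Agent.Lib_helper86.OPS.Pos2

/-!
# MP_859019, one pure state on each side: the step for first pairs with a pure state
-/

set_option autoImplicit false
set_option linter.unusedSectionVars false

open scoped BigOperators ComplexOrder Kronecker MatrixOrder Topology Real
open MeasureTheory Set Matrix Filter

namespace Pool.Agent.OPS

open Pool.Agent.RC Pool.Agent.LDK Pool.Agent.LDK.DUAL Pool.Agent.QB Pool.Agent.OP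

variable {m ι : Type} [Fintype m] [DecidableEq m] [Fintype ι] [DecidableEq ι]

/-- the derivative formula on all large circles -/
def DerAll (p : ℝ) (P Q : Matrix m m ℂ) (be : ι → ℝ) (j0 : ι) (y : ι → ℝ) : Prop :=
  ∃ δ > 0, ∃ M : ℝ, ∀ c ρ : ℝ, 0 < ρ → ρ < c → c - ρ < δ → M < c + ρ →
    ∃ (D2 : ι → ℝ) (D1 : ℝ),
      (∀ j, C2at (fun x => hPQ p P Q be (y + Pi.single j x)) (D2 j)) ∧
      HasDerivAt (fun x => hPQ p P Q be (y + Pi.single j0 x)) D1 0 ∧
      ((∑ j, y j * D2 j - (p - 1) * D1 : ℝ) : ℂ) = -(p / 2 : ℝ) *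
        ((2 * π * Complex.I : ℂ)⁻¹ * ∮ z in C(c, ρ), z ^ ((p - 1 : ℝ) : ℂ) * FF P Q be y z)

/-- positivity on all large circles -/
def PosAll (p : ℝ) (P Q : Matrix m m ℂ) (be y : ι → ℝ) : Prop :=
  ∃ δ > 0, ∃ M : ℝ, ∀ c ρ : ℝ, 0 < ρ → ρ < c → c - ρ < δ → M < c + ρ → ∃ e : ℝ, 0 ≤ e ∧
    (2 * π * Complex.I : ℂ)⁻¹ * (∮ z in C((c : ℂ), ρ), z ^ ((p - 1 : ℝ) : ℂ) *
      FF P Q be y z) = (e : ℂ)

theorem opOK_of_all {p : ℝ} (hp : 0 ≤ p) {P Q : Matrix m m ℂ} {be : ι → ℝ} {j0 : ι}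
    (hD : ∀ y : ι → ℝ, (∀ j, 0 < y j) → DerAll p P Q be j0 y)
    (hP : ∀ y : ι → ℝ, (∀ j, 0 < y j) → PosAll p P Q be y) : OpOK p P Q be j0 := by
  intro y hy
  obtain ⟨δ, hδ, M, h1⟩ := hD y hy
  obtain ⟨δ', hδ', M', h2⟩ := hP y hy
  set a : ℝ := min δ δ' / 2 with ha
  set b : ℝ := max (max M M') 0 + a + 1 with hb
  have ha0 : 0 < a := by
    have : 0 < min δ δ' := lt_min hδ hδ'
    rw [ha]; linarith
  have ha1 : a < δ := by
    have h3 : min δ δ' ≤ δ := min_le_left _ _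
    rw [ha]; rw [ha] at ha0; linarith
  have ha2 : a < δ' := by
    have h3 : min δ δ' ≤ δ' := min_le_right _ _
    rw [ha]; rw [ha] at ha0; linarith
  have hm0 : 0 ≤ max (max M M') 0 := le_max_right _ _
  have hb1 : M < b := by
    have h3 : M ≤ max (max M M') 0 := (le_max_left _ _).trans (le_max_left _ _)
    rw [hb]; linarith
  have hb2 : M' < b := by
    have h3 : M' ≤ max (max M M') 0 := (le_max_right _ _).trans (le_max_left _ _)
    rw [hb]; linarith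
  have hab : a < b := by rw [hb]; linarith
  have e1 : (a + b) / 2 - (b - a) / 2 = a := by ring
  have e2 : (a + b) / 2 + (b - a) / 2 = b := by ring
  obtain ⟨D2, D1, h5, h6, h7⟩ := h1 ((a + b) / 2) ((b - a) / 2) (by linarith) (by linarith)
    (by rw [e1]; exact ha1) (by rw [e2]; exact hb1)
  obtain ⟨e, he, h8⟩ := h2 ((a + b) / 2) ((b - a) / 2) (by linarith) (by linarith)
    (by rw [e1]; exact ha2) (by rw [e2]; exact hb2)
  refine ⟨D2, D1, h5, h6, ?_⟩
  rw [h8] at h7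
  have h9 : ((∑ j, y j * D2 j - (p - 1) * D1 : ℝ) : ℂ) = ((-(p / 2) * e : ℝ) : ℂ) := by
    rw [h7]; push_cast; ring
  rw [Complex.ofReal_inj] at h9
  rw [h9]
  nlinarith

/-- the derivative formula for positive definite pairs -/
def DerPD : Prop :=
  ∀ (m ι : Type) [Fintype m] [DecidableEq m] [Fintype ι] [DecidableEq ι] (P Q : Matrix m m ℂ),
    P.PosDef → Q.PosDef → ∀ (be : ι → ℝ) (j0 : ι), be j0 = 0 → (∀ j, j ≠ j0 → 0 < be j) →
    ∀ y : ι → ℝ, (∀ j, 0 < y j) → ∀ p : ℝ, 3 < p → DerAll p P Q be j0 y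

/-- the derivative formula for `Q` of rank at most one -/
def DerU : Prop :=
  ∀ (m ι : Type) [Fintype m] [DecidableEq m] [Fintype ι] [DecidableEq ι] (P : Matrix m m ℂ),
    P.PosDef → ∀ (u : m → ℂ) (be : ι → ℝ) (j0 : ι), be j0 = 0 → (∀ j, j ≠ j0 → 0 < be j) →
    ∀ y : ι → ℝ, (∀ j, 0 < y j) → ∀ p : ℝ, 3 < p →
      DerAll p P (vecMulVec u (star u)) be j0 y

/-- the step for first pairs with a pure state, all `p > 3` -/
theorem strictStep_one {p : ℝ} (hp : 3 < p) (hDer : DerTarget) (hPD : DerPD) (hU : DerU)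
    {A₁ D₁ : Matrix m m ℂ} (ha : (A₁ + D₁).PosSemidef) (hr : (A₁ + D₁).rank ≤ 1)
    (hb : (A₁ - D₁).PosDef) : StrictStep p A₁ D₁ := by
  refine strictStep_of hp hDer (psdPair_of_strict ha hb.posSemidef) ?_
  intro n be lam h0 hbp hl
  obtain ⟨u, hu⟩ := Pool.Agent.OP.exists_vec ha hr
  have hbe : ∀ j, 0 ≤ be j := by
    intro j
    by_cases h : j = 0
    · rw [h, h0]
    · exact (hbp j h).le
  have hlN : ((lam : ℂ) • (A₁ - D₁)).PosDef := hb.smul (by exact_mod_cast hl)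
  constructor
  · have e : (A₁ + D₁) + (lam : ℂ) • (A₁ - D₁) =
        (lam : ℂ) • (A₁ - D₁) + vecMulVec u (star u) := by rw [hu, add_comm]
    have hP : ((A₁ + D₁) + (lam : ℂ) • (A₁ - D₁)).PosDef := by
      rw [add_comm]; exact hlN.add_posSemidef ha
    refine opOK_of_all (by linarith) (fun y hy => hPD _ _ _ _ hP hb be 0 h0 hbp y hy p hp) ?_
    intro y hy
    rw [e]
    exact Pool.Agent.Lib_helper86.OPS.pos2a hp hb u hl be y hbe hy
  · have hP : ((A₁ - D₁) + (lam : ℂ) • (A₁ + D₁)).PosDef :=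
      hb.add_posSemidef (Pool.Agent.Lib_helper19.QS.psd_smul ha hl.le)
    refine opOK_of_all (by linarith) (fun y hy => ?_) (fun y hy => ?_)
    · have h := hU _ _ _ hP u be 0 h0 hbp y hy p hp
      rwa [← hu] at h
    · have h := Pool.Agent.Lib_helper86.OPS.pos2b hp hP u be y hbe hy
      rwa [← hu] at h

end Pool.Agent.OPS
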