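import Pool.Agent.Lib_helper64.OPS.Grow
import Pool.Agent.Lib_helper69.OPS.MP
import Pool.Agent.Lib_helper25.OPS.States

/-!
# MP_859019, one pure state: the maximum principle applied to the defect
-/

set_option autoImplicit false
set_option linter.unusedSectionVars false

open scoped BigOperators ComplexOrder Kronecker MatrixOrder Topology
open MeasureTheory Set Matrix Filter

namespace Pool.Agent.OPS

open Pool.Agent.RC Pool.Agent.LDK Pool.Agent.LDK.DUAL Pool.Agent.QB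

variable {m ι : Type} [Fintype m] [DecidableEq m] [Fintype ι] [DecidableEq ι]

/-- the defect of Q1 for `V = (M, N)`, `W = (M', N')` -/
noncomputable def JV (p : ℝ) (M N : Matrix m m ℂ) (M' N' : Matrix ι ι ℂ) : ℝ :=
  (2 ^ (p - 1) - 1) * (tp p (M ⊗ₖ M' + N ⊗ₖ N') + tp p (M ⊗ₖ N' + N ⊗ₖ M') -
    (tp p M + tp p N) * (tp p M' + tp p N')) -
  (tp p (M + N) - tp p M - tp p N) * (tp p (M' + N') - tp p M' - tp p N')

theorem JV_eq {p : ℝ} {A D : Matrix m m ℂ} {A' D' : Matrix ι ι ℂ}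
    (h : IsPsdPair A D) (h' : IsPsdPair A' D') :
    (1 / 2 : ℝ) ^ p / 2 * JV p (A + D) (A - D) (A' + D') (A' - D') =
      (2 ^ (p - 1) - 1) * G p (A ⊗ₖ A') (D ⊗ₖ D') - G p A D * G p A' D' := by
  have hq : (1 / 2 : ℝ) ^ p * 2 ^ (p - 1) = 1 / 2 := by
    rw [one_div, Real.inv_rpow (by norm_num), ← Real.rpow_neg (by norm_num),
      ← Real.rpow_add (by norm_num)]
    rw [show -p + (p - 1) = -1 by ring, Real.rpow_neg_one]
  have e0 : ∀ X : Matrix (m × ι) (m × ι) ℂ, X.PosSemidef →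
      tp p (((1 / 2 : ℝ) : ℂ) • X) = (1 / 2 : ℝ) ^ p * tp p X := fun X hX =>
    tp_smul hX (by norm_num)
  have c1 : A ⊗ₖ A' + D ⊗ₖ D' =
      ((1 / 2 : ℝ) : ℂ) • ((A + D) ⊗ₖ (A' + D') + (A - D) ⊗ₖ (A' - D')) := by
    ext i j
    simp only [Matrix.add_apply, Matrix.sub_apply, Matrix.smul_apply, Matrix.kroneckerMap_apply,
      smul_eq_mul]
    push_cast
    ring
  have c2 : A ⊗ₖ A' - D ⊗ₖ D' =
      ((1 / 2 : ℝ) : ℂ) • ((A + D) ⊗ₖ (A' - D') + (A - D) ⊗ₖ (A' + D')) := by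
    ext i j
    simp only [Matrix.add_apply, Matrix.sub_apply, Matrix.smul_apply, Matrix.kroneckerMap_apply,
      smul_eq_mul]
    push_cast
    ring
  have c3 : ∀ {κ : Type} [Fintype κ] [DecidableEq κ] {B E : Matrix κ κ ℂ}, IsPsdPair B E →
      tp p B = (1 / 2 : ℝ) ^ p * tp p ((B + E) + (B - E)) := by
    intro κ _ _ B E hB
    rw [← tp_smul (hB.add.add hB.sub) (by norm_num : (0 : ℝ) ≤ 1 / 2)]
    congr 1
    ext i j
    simp only [Matrix.add_apply, Matrix.sub_apply, Matrix.smul_apply, smul_eq_mul]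
    push_cast
    ring
  have g0 : G p (A ⊗ₖ A') (D ⊗ₖ D') = (tp p (A ⊗ₖ A' + D ⊗ₖ D') + tp p (A ⊗ₖ A' - D ⊗ₖ D')) / 2 -
      tp p (A ⊗ₖ A') := rfl
  have g1 : G p A D = (tp p (A + D) + tp p (A - D)) / 2 - tp p A := rfl
  have g2 : G p A' D' = (tp p (A' + D') + tp p (A' - D')) / 2 - tp p A' := rfl
  rw [g0, g1, g2, c1, c2, e0 _ ((h.add.kronecker h'.add).add (h.sub.kronecker h'.sub)),
    e0 _ ((h.add.kronecker h'.sub).add (h.sub.kronecker h'.add)), tp_kron h.pos h'.pos,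
    c3 h, c3 h']
  unfold JV
  generalize tp p ((A + D) + (A - D)) = S
  generalize tp p ((A' + D') + (A' - D')) = S'
  generalize tp p (A + D) = a
  generalize tp p (A - D) = b
  generalize tp p (A' + D') = a'
  generalize tp p (A' - D') = b'
  linear_combination ((1 / 2 : ℝ) ^ p * S * S' - (a + b) * (a' + b') / 2) * hq

/-- CQ in the form needed for the growth -/
theorem cq_JS {p : ℝ} (hp : 3 < p) {M N : Matrix m m ℂ} (hM : M.PosSemidef) (hN : N.PosSemidef)
    {l : ℝ} (hl : 0 ≤ l) :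
    0 ≤ (2 ^ (p - 1) - 1) * (tp p (M + (l : ℂ) • N) + tp p (N + (l : ℂ) • M) -
      (tp p M + tp p N) * (1 + l ^ p)) -
      (tp p (M + N) - tp p M - tp p N) * ((1 + l) ^ p - 1 - l ^ p) := by
  set A : Matrix m m ℂ := ((1 / 2 : ℝ) : ℂ) • (M + N) with hA
  set D : Matrix m m ℂ := ((1 / 2 : ℝ) : ℂ) • (M - N) with hD
  have eM : A + D = M := by rw [hA, hD]; push_cast; module
  have eN : A - D = N := by rw [hA, hD]; push_cast; module
  have hAD : IsPsdPair A D := ⟨Pool.Agent.Lib_helper19.QS.psd_smul (hM.add hN) (by norm_num),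
    by rw [eN]; exact hN, by rw [eM]; exact hM⟩
  have hl1 : 0 < 1 + l := by linarith
  obtain ⟨v, hv0, hv1, hv⟩ : ∃ v : ℝ, 0 ≤ v ∧ v ≤ 1 ∧
      ((1 + v = 2 / (1 + l) ∧ 1 - v = 2 * l / (1 + l)) ∨
        (1 - v = 2 / (1 + l) ∧ 1 + v = 2 * l / (1 + l))) := by
    rcases le_total l 1 with h | h
    · refine ⟨(1 - l) / (1 + l), div_nonneg (by linarith) hl1.le, ?_, Or.inl ⟨?_, ?_⟩⟩
      · rw [div_le_one hl1]; linarith
      · field_simp; ring
      · field_simp; ring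
    · refine ⟨(l - 1) / (1 + l), div_nonneg (by linarith) hl1.le, ?_, Or.inr ⟨?_, ?_⟩⟩
      · rw [div_le_one hl1]; linarith
      · field_simp; ring
      · field_simp; ring
  have key := Pool.Agent.Lib_helper19.QS.cqStmt Pool.Agent.Lib_helper19.QS.mpg p hp m A D hAD v hv0 hv1
  have g1 : G p A D = (tp p (A + D) + tp p (A - D)) / 2 - tp p A := rfl
  have g2 : G p A ((v : ℂ) • D) = (tp p (A + (v : ℂ) • D) + tp p (A - (v : ℂ) • D)) / 2 - tp p A :=
    rfl
  have hpA : tp p (M + N) = 2 ^ p * tp p A := by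
    have : M + N = ((2 : ℝ) : ℂ) • A := by rw [hA]; push_cast; module
    rw [this, tp_smul hAD.pos (by norm_num)]
  have hsum : tp p (M + (l : ℂ) • N) + tp p (N + (l : ℂ) • M) =
      (1 + l) ^ p * (tp p (A + (v : ℂ) • D) + tp p (A - (v : ℂ) • D)) := by
    have hx1 : (A + (v : ℂ) • D).PosSemidef :=
      Pool.Agent.Lib_helper19.QS.psd_add_smul hAD (by rw [abs_of_nonneg hv0]; exact hv1)
    have hx2 : (A - (v : ℂ) • D).PosSemidef :=
      Pool.Agent.Lib_helper19.QS.psd_sub_smul hAD (by rw [abs_of_nonneg hv0]; exact hv1)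
    rw [mul_add, ← tp_smul hx1 hl1.le, ← tp_smul hx2 hl1.le]
    have f1 : ∀ a b : ℝ, (a : ℂ) • (M) + (b : ℂ) • N =
        (((a + b) : ℝ) : ℂ) • A + (((a - b) : ℝ) : ℂ) • D := by
      intro a b
      rw [hA, hD]; push_cast; module
    have f2 : M + (l : ℂ) • N = (((1 + l) : ℝ) : ℂ) • A + (((1 - l) : ℝ) : ℂ) • D := by
      have := f1 1 l
      simpa using this
    have f3 : N + (l : ℂ) • M = (((1 + l) : ℝ) : ℂ) • A - (((1 - l) : ℝ) : ℂ) • D := by
      have h1 := f1 l 1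
      have e : (((l - 1) : ℝ) : ℂ) = -(((1 - l) : ℝ) : ℂ) := by push_cast; ring
      rw [e, add_comm l 1, neg_smul, ← sub_eq_add_neg] at h1
      rw [← h1]
      push_cast
      module
    rw [f2, f3]
    rcases hv with ⟨h1, h2⟩ | ⟨h1, h2⟩
    · have hvl : (1 + l) * v = 1 - l := by
        have : 2 * v = 2 / (1 + l) - 2 * l / (1 + l) := by linarith
        field_simp at this
        linarith
      have e3 : (((1 + l) : ℝ) : ℂ) • ((v : ℂ) • D) = (((1 - l) : ℝ) : ℂ) • D := by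
        rw [smul_smul, ← Complex.ofReal_mul, hvl]
      rw [smul_add, smul_sub, e3]
    · have hvl : (1 + l) * v = -(1 - l) := by
        have : 2 * v = 2 * l / (1 + l) - 2 / (1 + l) := by linarith
        field_simp at this
        linarith
      have e3 : (((1 + l) : ℝ) : ℂ) • ((v : ℂ) • D) = -((((1 - l) : ℝ) : ℂ) • D) := by
        rw [smul_smul, ← Complex.ofReal_mul, hvl, ← neg_smul]
        congr 1
        push_cast
        ring
      rw [smul_add, smul_sub, e3, sub_neg_eq_add, ← sub_eq_add_neg, add_comm]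
  have hcc : (1 + l) ^ p * cc p v = 2 ^ (p - 1) * (1 + l ^ p) := by
    have e2 : (2 : ℝ) ^ p = 2 * 2 ^ (p - 1) := Pool.Agent.Lib_helper19.QS.two_rpow p
    have hL : 0 < (1 + l) ^ p := Real.rpow_pos_of_pos hl1 p
    have h1 : (2 / (1 + l)) ^ p = 2 * 2 ^ (p - 1) / (1 + l) ^ p := by
      rw [Real.div_rpow (by norm_num) hl1.le, e2]
    have h2 : (2 * l / (1 + l)) ^ p = 2 * 2 ^ (p - 1) * l ^ p / (1 + l) ^ p := by
      rw [Real.div_rpow (by positivity) hl1.le, Real.mul_rpow (by norm_num) hl, e2]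
    unfold cc
    rcases hv with ⟨h3, h4⟩ | ⟨h3, h4⟩
    · rw [h3, h4, h1, h2]; field_simp
    · rw [h3, h4, h1, h2]; field_simp; ring
  rw [g1, g2, eM, eN] at key
  rw [hsum, hpA, Pool.Agent.Lib_helper19.QS.two_rpow p]
  have hq : 1 ≤ (2 : ℝ) ^ (p - 1) := Real.one_le_rpow (by norm_num) (by linarith)
  have hL : 0 < (1 + l) ^ p := Real.rpow_pos_of_pos hl1 p
  generalize tp p (A + (v : ℂ) • D) + tp p (A - (v : ℂ) • D) = T at *
  generalize tp p M = a at *
  generalize tp p N = b at *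
  generalize tp p A = c at *
  generalize (2 : ℝ) ^ (p - 1) = q at *
  generalize (1 + l) ^ p = L at *
  generalize l ^ p = w at *
  generalize cc p v = z at *
  have h5 := mul_le_mul_of_nonneg_left key hL.le
  have h6 : (q - 1) * (L * T - (a + b) * (1 + w)) - (2 * q * c - a - b) * (L - 1 - w) =
      2 * (L * ((q - 1) * (T / 2 - c)) - L * ((z - 1) * ((a + b) / 2 - c))) +
      (2 * c - (a + b)) * (q * (1 + w) - L * z) := by ring
  rw [h6, hcc]
  linarith

/-! ### the operator `∑ y_j ∂_j² - (p - 1) ∂_0` -/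

/-- the operator inequality for `h_PQ` (blocks DER and POS) -/
def OpOK (p : ℝ) (P Q : Matrix m m ℂ) (be : ι → ℝ) (j0 : ι) : Prop :=
  ∀ y : ι → ℝ, (∀ j, 0 < y j) → ∃ (D2 : ι → ℝ) (D1 : ℝ),
    (∀ j, C2at (fun x => hPQ p P Q be (y + Pi.single j x)) (D2 j)) ∧
    HasDerivAt (fun x => hPQ p P Q be (y + Pi.single j0 x)) D1 0 ∧
    ∑ j, y j * D2 j - (p - 1) * D1 ≤ 0

theorem opOK_of (hDer : DerTarget) {p : ℝ} (hp : 0 ≤ p) (hPos : PosTarget p) {P Q : Matrix m m ℂ}
    (hP : P.PosDef) (hQ : Q.PosDef) {be : ι → ℝ} {j0 : ι} (h0 : be j0 = 0)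
    (hb : ∀ j, j ≠ j0 → 0 < be j) : OpOK p P Q be j0 := by
  intro y hy
  obtain ⟨D2, D1, c, ρ, h1, h2, h3, h4, h5, h6, h7⟩ := hDer m ι P Q hP hQ be j0 h0 hb y hy p
  refine ⟨D2, D1, h5, h6, ?_⟩
  have h8 := hPos m ι P Q hP hQ be j0 h0 hb y hy c ρ h1 h2 h3 h4
  have h9 := congrArg Complex.re h7
  rw [Complex.ofReal_re, ← Complex.ofReal_neg, Complex.re_ofReal_mul] at h9
  rw [h9]
  nlinarith

theorem one1_psd {c : ℝ} (hc : 0 ≤ c) : (one1 c).PosSemidef :=
  Pool.Agent.Lib_helper19.QS.psd_smul Matrix.PosSemidef.one hc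

theorem one1_pd {c : ℝ} (hc : 0 < c) : (one1 c).PosDef :=
  Matrix.PosDef.one.smul (by exact_mod_cast hc)

theorem scal_op (hDer : DerTarget) {p c : ℝ} (hc : 0 ≤ c) {be : ι → ℝ} {j0 : ι} (h0 : be j0 = 0)
    (hb : ∀ j, j ≠ j0 → 0 < be j) {y : ι → ℝ} (hy : ∀ j, 0 < y j) :
    ∃ (D2 : ι → ℝ) (D1 : ℝ), (∀ j, C2at (fun x => tc p c be (y + Pi.single j x)) (D2 j)) ∧
      HasDerivAt (fun x => tc p c be (y + Pi.single j0 x)) D1 0 ∧
      ∑ j, y j * D2 j - (p - 1) * D1 = 0 := by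
  rcases hc.eq_or_lt with h | h
  · subst h
    have e : ∀ z : ι → ℝ, tc p 0 be z = tc p 0 be y := by
      intro z; simp [tc]
    refine ⟨fun _ => 0, 0, fun j => ?_, ?_, by simp⟩
    · simp only [e]
      exact ⟨fun _ => 0, Eventually.of_forall fun x => hasDerivAt_const x _, hasDerivAt_const 0 0⟩
    · simp only [e]
      exact hasDerivAt_const 0 _
  · obtain ⟨D2, D1, c', ρ, h1, h2, h3, h4, h5, h6, h7⟩ :=
      hDer Unit ι (one1 c) (one1 1) (one1_pd h) (one1_pd one_pos) be j0 h0 hb y hy p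
    have hF : ∀ z, FF (one1 c) (one1 1) be y z = 0 := by
      intro z
      have hcm : ∀ A B : Matrix Unit Unit ℂ, A * B = B * A := by
        intro A B
        ext i j
        simp [Matrix.mul_apply, mul_comm]
      unfold FF
      refine Finset.sum_eq_zero fun j _ => ?_
      rw [hcm (SS (one1 1) (be j) z) (tau (one1 c) (one1 1) be y z), sub_self]
      simp
    refine ⟨D2, D1, fun j => ?_, ?_, ?_⟩
    · simp only [tc_eq_hPQ]; exact h5 j
    · simp only [tc_eq_hPQ]; exact h6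
    · have hz : (∮ z in C((c' : ℂ), ρ), (0 : ℂ)) = 0 := by simp [circleIntegral]
      simp only [hF, mul_zero] at h7
      rw [hz, mul_zero, mul_zero] at h7
      exact_mod_cast h7

/-! ### the defect in the coordinates `y` -/

theorem JV_y {p : ℝ} (hp : 0 < p) (M N : Matrix m m ℂ) (l : ℝ) (be : ι → ℝ) {y : ι → ℝ}
    (hy : ∀ j, 0 ≤ y j) :
    JV p M N (phiM y) (Matrix.diagonal (fun j => (be j : ℂ)) + (l : ℂ) • phiM y) =
      (2 ^ (p - 1) - 1) * (hPQ p (M + (l : ℂ) • N) N be y + hPQ p (N + (l : ℂ) • M) M be y) +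
      ((tp p (M + N) - tp p M - tp p N) - (2 ^ (p - 1) - 1) * (tp p M + tp p N)) *
        (∑ j, y j) ^ p +
      ((tp p (M + N) - tp p M - tp p N) - (2 ^ (p - 1) - 1) * (tp p M + tp p N)) *
        tc p l be y +
      (-(tp p (M + N) - tp p M - tp p N)) * tc p (1 + l) be y := by
  have e1 : M ⊗ₖ phiM y + N ⊗ₖ (Matrix.diagonal (fun j => (be j : ℂ)) + (l : ℂ) • phiM y) =
      XX (M + (l : ℂ) • N) N be y := by
    unfold XX
    ext i j
    simp only [Matrix.add_apply, Matrix.smul_apply, Matrix.kroneckerMap_apply, smul_eq_mul]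
    ring
  have e2 : M ⊗ₖ (Matrix.diagonal (fun j => (be j : ℂ)) + (l : ℂ) • phiM y) + N ⊗ₖ phiM y =
      XX (N + (l : ℂ) • M) M be y := by
    unfold XX
    ext i j
    simp only [Matrix.add_apply, Matrix.smul_apply, Matrix.kroneckerMap_apply, smul_eq_mul]
    ring
  have e3 : phiM y + (Matrix.diagonal (fun j => (be j : ℂ)) + (l : ℂ) • phiM y) =
      Matrix.diagonal (fun j => (be j : ℂ)) + ((1 + l : ℝ) : ℂ) • phiM y := by
    push_cast; module
  unfold JV
  rw [e1, e2, e3, tp_phiM hp hy]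
  unfold hPQ tc
  ring

/-- the maximum principle applied to the defect -/
theorem glue {p : ℝ} (hp : 3 < p) (hDer : DerTarget) {M N : Matrix m m ℂ} (hM : M.PosSemidef)
    (hN : N.PosSemidef) {l : ℝ} (hl : 0 ≤ l) {be : ι → ℝ} {j0 : ι} (h0 : be j0 = 0)
    (hb : ∀ j, j ≠ j0 → 0 < be j) (h1 : OpOK p (M + (l : ℂ) • N) N be j0)
    (h2 : OpOK p (N + (l : ℂ) • M) M be j0)
    (hface : ∀ y : ι → ℝ, (∀ j, 0 ≤ y j) → (∃ j, y j = 0) →
      0 ≤ JV p M N (phiM y) (Matrix.diagonal (fun j => (be j : ℂ)) + (l : ℂ) • phiM y)) :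
    ∀ y : ι → ℝ, (∀ j, 0 ≤ y j) →
      0 ≤ JV p M N (phiM y) (Matrix.diagonal (fun j => (be j : ℂ)) + (l : ℂ) • phiM y) := by
  have hbe : ∀ j, 0 ≤ be j := by
    intro j
    by_cases h : j = j0
    · rw [h, h0]
    · exact (hb j h).le
  have hB : 0 ≤ ∑ j, be j := Finset.sum_nonneg fun j _ => hbe j
  have hMl : (M + (l : ℂ) • N).PosSemidef := hM.add (Pool.Agent.Lib_helper19.QS.psd_smul hN hl)
  have hNl : (N + (l : ℂ) • M).PosSemidef := hN.add (Pool.Agent.Lib_helper19.QS.psd_smul hM hl)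
  have hq : 1 ≤ (2 : ℝ) ^ (p - 1) := Real.one_le_rpow (by norm_num) (by linarith)
  have hcq := cq_JS hp hM hN hl
  set g : ℝ := tp p (M + N) - tp p M - tp p N with hg
  set s : ℝ := tp p M + tp p N with hs
  set k : ℝ := (2 : ℝ) ^ (p - 1) - 1 with hk
  have hk0 : 0 ≤ k := by linarith
  have hs0 : 0 ≤ s := by
    have h3 : ∀ X : Matrix m m ℂ, X.PosSemidef → 0 ≤ tp p X := by
      intro X hX
      unfold tp trF
      rw [dif_pos hX.1]
      exact Finset.sum_nonneg fun i _ => Real.rpow_nonneg (hX.eigenvalues_nonneg i) _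
    exact add_nonneg (h3 M hM) (h3 N hN)
  have hJ : ∀ y : ι → ℝ, (∀ j, 0 ≤ y j) →
      JV p M N (phiM y) (Matrix.diagonal (fun j => (be j : ℂ)) + (l : ℂ) • phiM y) =
      k * (hPQ p (M + (l : ℂ) • N) N be y + hPQ p (N + (l : ℂ) • M) M be y) +
      (g - k * s) * (∑ j, y j) ^ p + (g - k * s) * tc p l be y + (-g) * tc p (1 + l) be y :=
    fun y hy => JV_y (by linarith) M N l be hy
  have hcont : ∀ c : ℝ, 0 ≤ c → Continuous fun y : ι → ℝ => tc p c be y := by
    intro c hc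
    simp only [tc_eq_hPQ]
    exact cont_hPQ (by linarith) (one1_psd hc) (one1_psd zero_le_one) hbe
  set K : ℝ → ℝ := fun c => p * (∑ j, be j) * (c + ∑ j, be j) ^ (p - 1) with hK
  refine Pool.Agent.Lib_helper69.OPS.mp_orthant j0 (p := p) (by linarith) _ ?_ hface
    (k * s * K l + |g| * K (1 + l) + |g| * K l) ?_ ?_
  · -- continuity
    have hc1 : Continuous fun y : ι → ℝ =>
        k * (hPQ p (M + (l : ℂ) • N) N be y + hPQ p (N + (l : ℂ) • M) M be y) +
        (g - k * s) * (∑ j, y j) ^ p + (g - k * s) * tc p l be y + (-g) * tc p (1 + l) be y := by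
      have a1 := cont_hPQ (p := p) (by linarith) hMl hN hbe
      have a2 := cont_hPQ (p := p) (by linarith) hNl hM hbe
      have a3 : Continuous fun y : ι → ℝ => (∑ j, y j) ^ p := by
        have h3 : Continuous fun y : ι → ℝ => ∑ j, y j := by fun_prop
        exact h3.rpow_const fun y => Or.inr (by linarith)
      exact (((continuous_const.mul (a1.add a2)).add (continuous_const.mul a3)).add
        (continuous_const.mul (hcont l hl))).add
        (continuous_const.mul (hcont (1 + l) (by linarith)))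
    exact hc1.continuousOn.congr fun y hy => hJ y hy
  · -- growth
    intro y hy
    have hS : 0 ≤ ∑ j, y j := Finset.sum_nonneg fun j _ => hy j
    rw [hJ y hy]
    have b1 := hPQ_lower (p := p) (by linarith) hMl hN hbe hy
    have b2 := hPQ_lower (p := p) (by linarith) hNl hM hbe hy
    obtain ⟨b3, b4⟩ := tc_bounds (p := p) (by linarith) hl hbe hy
    obtain ⟨b5, b6⟩ := tc_bounds (p := p) (c := 1 + l) (by linarith) (by linarith) hbe hy
    have hSp : 0 ≤ (∑ j, y j) ^ p := Real.rpow_nonneg hS _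
    have hE : 0 ≤ (1 + ∑ j, y j) ^ (p - 1) := Real.rpow_nonneg (by linarith) _
    have b7 := mul_nonneg hcq hSp
    have b8 := mul_le_mul_of_nonneg_left (add_le_add b1 b2) hk0
    have eK1 : K l = p * (∑ j, be j) * (l + ∑ j, be j) ^ (p - 1) := rfl
    have eK2 : K (1 + l) = p * (∑ j, be j) * (1 + l + ∑ j, be j) ^ (p - 1) := rfl
    rw [← eK1] at b4
    rw [← eK2] at b6
    generalize hPQ p (M + (l : ℂ) • N) N be y = x1 at *
    generalize hPQ p (N + (l : ℂ) • M) M be y = x2 at *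
    generalize tc p l be y = x3 at *
    generalize tc p (1 + l) be y = x4 at *
    generalize (∑ j, y j) ^ p = Sp at *
    generalize (1 + ∑ j, y j) ^ (p - 1) = E at *
    generalize tp p (M + (l : ℂ) • N) = t1 at *
    generalize tp p (N + (l : ℂ) • M) = t2 at *
    generalize l ^ p = lp at *
    generalize (1 + l) ^ p = lq at *
    generalize K l = K1 at *
    generalize K (1 + l) = K2 at *
    -- deviations
    have w1 : 0 ≤ x3 - lp * Sp := by linarith
    have w2 : x3 - lp * Sp ≤ K1 * E := by linarith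
    have w3 : 0 ≤ x4 - lq * Sp := by linarith
    have w4 : x4 - lq * Sp ≤ K2 * E := by linarith
    have v1 : -(|g| * (K1 * E)) ≤ g * (x3 - lp * Sp) := by
      have : |g * (x3 - lp * Sp)| ≤ |g| * (K1 * E) := by
        rw [abs_mul, abs_of_nonneg w1]
        exact mul_le_mul_of_nonneg_left w2 (abs_nonneg g)
      exact (abs_le.1 this).1
    have v2 : g * (x4 - lq * Sp) ≤ |g| * (K2 * E) := by
      have : |g * (x4 - lq * Sp)| ≤ |g| * (K2 * E) := by
        rw [abs_mul, abs_of_nonneg w3]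
        exact mul_le_mul_of_nonneg_left w4 (abs_nonneg g)
      exact (abs_le.1 this).2
    have v3 : k * s * (x3 - lp * Sp) ≤ k * s * (K1 * E) :=
      mul_le_mul_of_nonneg_left w2 (mul_nonneg hk0 hs0)
    nlinarith [b7, b8, v1, v2, v3]
  · -- the operator
    intro y hy
    obtain ⟨a2, a1, ha, ha', ha''⟩ := h1 y hy
    obtain ⟨b2, b1, hb1, hb', hb''⟩ := h2 y hy
    obtain ⟨c2, c1, hc, hc', hc''⟩ := scal_op hDer (p := p) hl h0 hb hy
    obtain ⟨d2, d1, hd, hd', hd''⟩ := scal_op hDer (p := p) (c := 1 + l) (by linarith) h0 hb hy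
    have hS : 0 < ∑ j, y j := Finset.sum_pos (fun j _ => hy j) ⟨j0, Finset.mem_univ j0⟩
    set S : ℝ := ∑ j, y j with hSdef
    have hev : ∀ j, ∀ᶠ x in 𝓝 (0 : ℝ), ∀ i, 0 ≤ (y + Pi.single j x : ι → ℝ) i := by
      intro j
      have e1 : ∀ᶠ x in 𝓝 (0 : ℝ), -(y j) < x := Ioi_mem_nhds (by linarith [hy j])
      filter_upwards [e1] with x h3 i
      by_cases h : i = j
      · subst h; simp; linarith
      · simp [Pi.single_eq_of_ne h, (hy i).le]
    have hsum : ∀ j x, ∑ i, (y + Pi.single j x : ι → ℝ) i = S + x := fun j x =>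
      Pool.Agent.Lib_helper69.OPS.sum_single y j x
    refine ⟨fun j => k * (a2 j + b2 j) + (g - k * s) * (p * (p - 1) * S ^ (p - 2)) +
      (g - k * s) * c2 j + (-g) * d2 j, k * (a1 + b1) + (g - k * s) * (p * S ^ (p - 1)) +
      (g - k * s) * c1 + (-g) * d1, fun j => ?_, ?_, ?_⟩
    · have h3 := (((C2at.const_mul k ((ha j).add (hb1 j))).add (C2at.const_mul (g - k * s)
        (Pool.Agent.Lib_helper69.OPS.C2at_shift hS p))).add (C2at.const_mul (g - k * s)
        (hc j))).add (C2at.const_mul (-g) (hd j))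
      refine h3.congr ?_
      filter_upwards [hev j] with x hx
      rw [hJ _ hx, hsum]
    · have h3 := (((HasDerivAt.const_mul k (ha'.add hb')).add (HasDerivAt.const_mul (g - k * s)
        (Pool.Agent.Lib_helper69.OPS.hasDeriv_shift hS p))).add (HasDerivAt.const_mul (g - k * s)
        hc')).add (HasDerivAt.const_mul (-g) hd')
      refine h3.congr_of_eventuallyEq ?_
      filter_upwards [hev j0] with x hx
      rw [hJ _ hx, hsum]
      rfl
    · have h5 : S * S ^ (p - 2) = S ^ (p - 1) := by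
        have e : S ^ (p - 1) = S ^ (1 + (p - 2)) := by congr 1; ring
        rw [e, Real.rpow_add hS, Real.rpow_one]
      have e1 : ∑ j, y j * (k * (a2 j + b2 j) + (g - k * s) * (p * (p - 1) * S ^ (p - 2)) +
          (g - k * s) * c2 j + (-g) * d2 j) =
          k * (∑ j, y j * a2 j) + k * (∑ j, y j * b2 j) +
          (g - k * s) * (p * (p - 1)) * (S * S ^ (p - 2)) + (g - k * s) * (∑ j, y j * c2 j) +
          (-g) * (∑ j, y j * d2 j) := by
        rw [hSdef]
        simp only [Finset.mul_sum, Finset.sum_mul]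
        simp only [← Finset.sum_add_distrib]
        refine Finset.sum_congr rfl fun j _ => ?_
        ring
      rw [e1, h5]
      have m1 := mul_nonneg hk0 (show 0 ≤ -(∑ j, y j * a2 j - (p - 1) * a1) by linarith)
      have m2 := mul_nonneg hk0 (show 0 ≤ -(∑ j, y j * b2 j - (p - 1) * b1) by linarith)
      have m3 : (g - k * s) * (∑ j, y j * c2 j - (p - 1) * c1) = 0 := by rw [hc'', mul_zero]
      have m4 : g * (∑ j, y j * d2 j - (p - 1) * d1) = 0 := by rw [hd'', mul_zero]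
      nlinarith [m1, m2, m3, m4]

/-! ### the step for the pairs `(AX, DX)` -/

theorem ineq_iff_JV {p : ℝ} {A₁ D₁ : Matrix m m ℂ} {A₂ D₂ : Matrix ι ι ℂ}
    (h₁ : IsPsdPair A₁ D₁) (h₂ : IsPsdPair A₂ D₂) :
    Pool.Agent.OP.Ineq p A₁ D₁ A₂ D₂ ↔ 0 ≤ JV p (A₁ + D₁) (A₁ - D₁) (A₂ + D₂) (A₂ - D₂) := by
  have h := JV_eq (p := p) h₁ h₂
  have hc : 0 < (1 / 2 : ℝ) ^ p / 2 := by positivity
  unfold Pool.Agent.OP.Ineq
  constructor
  · intro h3
    by_contra h4
    push Not at h4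
    have := mul_neg_of_pos_of_neg hc h4
    linarith
  · intro h3
    have := mul_nonneg hc.le h3
    linarith

/-- the step of the maximum principle for the pairs `(AX, DX)` -/
theorem step_strict {p : ℝ} (hp : 3 < p) (hDer : DerTarget) {A₁ D₁ : Matrix m m ℂ}
    (h₁ : IsPsdPair A₁ D₁) {n : ℕ} {be : Fin (n + 1) → ℝ} {lam : ℝ} (h0 : be 0 = 0)
    (hb : ∀ j, j ≠ 0 → 0 < be j) (hl : 0 ≤ lam)
    (h1 : OpOK p ((A₁ + D₁) + (lam : ℂ) • (A₁ - D₁)) (A₁ - D₁) be 0)
    (h2 : OpOK p ((A₁ - D₁) + (lam : ℂ) • (A₁ + D₁)) (A₁ + D₁) be 0)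
    (hface : ∀ y : Fin (n + 1) → ℝ, (∀ i, 0 ≤ y i) → (∃ i, y i = 0) →
      Pool.Agent.OP.Ineq p A₁ D₁ (Pool.Agent.OP.AX be lam y) (Pool.Agent.OP.DX be lam y)) :
    ∀ y : Fin (n + 1) → ℝ, (∀ i, 0 ≤ y i) →
      Pool.Agent.OP.Ineq p A₁ D₁ (Pool.Agent.OP.AX be lam y) (Pool.Agent.OP.DX be lam y) := by
  have hbe : ∀ j, 0 ≤ be j := by
    intro j
    by_cases h : j = 0
    · rw [h, h0]
    · exact (hb j h).le
  have key : ∀ y : Fin (n + 1) → ℝ,
      (Pool.Agent.OP.Ineq p A₁ D₁ (Pool.Agent.OP.AX be lam y) (Pool.Agent.OP.DX be lam y) ↔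
        0 ≤ JV p (A₁ + D₁) (A₁ - D₁) (phiM y)
          (Matrix.diagonal (fun j => (be j : ℂ)) + (lam : ℂ) • phiM y)) := by
    intro y
    rw [ineq_iff_JV h₁ (Pool.Agent.OP.X_pair hbe hl), Pool.Agent.OP.AX_add_DX,
      Pool.Agent.OP.AX_sub_DX]
    exact Iff.rfl
  intro y hy
  rw [key]
  exact glue hp hDer h₁.add h₁.sub hl h0 hb h1 h2 (fun z hz hz0 => (key z).1 (hface z hz hz0)) y hy

end Pool.Agent.OPS
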