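import Pool.Agent.Lib_helper69.OPS.Defs
import Pool.Agent.Lib_helper19.QS.Core
import Pool.Agent.Lib_helper49.GC34.E4
import Pool.Agent.Lib_helper13.GC34.Mono
import Pool.Agent.Lib_helper33.GC.C1t

/-!
# MP_859019, one pure state: growth, continuity, scalar terms
-/

set_option autoImplicit false
set_option linter.unusedSectionVars false

open scoped BigOperators ComplexOrder Kronecker MatrixOrder Topology
open MeasureTheory Set Matrix Filter

namespace Pool.Agent.OPS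

open Pool.Agent.RC Pool.Agent.LDK Pool.Agent.LDK.DUAL

variable {m ι : Type} [Fintype m] [DecidableEq m] [Fintype ι] [DecidableEq ι]

/-- the column `√y` -/
noncomputable def colS (y : ι → ℝ) : Matrix ι Unit ℂ := Matrix.of fun i _ => ((√(y i) : ℝ) : ℂ)

theorem phiM_eq (y : ι → ℝ) : phiM y = colS y * (colS y)ᴴ := by
  ext i j
  simp [phiM, colS, Matrix.mul_apply, Matrix.conjTranspose_apply]

theorem phiM_psd (y : ι → ℝ) : (phiM y).PosSemidef := by
  rw [phiM_eq]; exact Matrix.posSemidef_self_mul_conjTranspose _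

theorem dgc_psd {be : ι → ℝ} (h : ∀ j, 0 ≤ be j) :
    (Matrix.diagonal (fun j => (be j : ℂ))).PosSemidef :=
  Matrix.PosSemidef.diagonal fun j => by
    show (0 : ℂ) ≤ (be j : ℂ)
    exact_mod_cast h j

theorem trF_diag (f : ℝ → ℝ) (c : ι → ℝ) :
    trF f (Matrix.diagonal (fun i => (c i : ℂ))) = ∑ i, f (c i) := by
  have h : (Matrix.diagonal (fun i => (c i : ℂ)) : Matrix ι ι ℂ) =
      1 * Matrix.diagonal (fun i => (c i : ℂ)) * (1 : Matrix ι ι ℂ)ᴴ := by simp
  rw [h, TRF.trF_conj _ (by simp)]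

theorem tp_phiM {p : ℝ} (hp : 0 < p) {y : ι → ℝ} (hy : ∀ j, 0 ≤ y j) :
    tp p (phiM y) = (∑ j, y j) ^ p := by
  unfold tp
  rw [phiM_eq, trF_rpow_mul hp]
  have e : (colS y)ᴴ * colS y = Matrix.diagonal (fun _ : Unit => ((∑ j, y j : ℝ) : ℂ)) := by
    ext i j
    simp only [Matrix.mul_apply, Matrix.conjTranspose_apply, colS, Matrix.of_apply,
      Matrix.diagonal_apply, RCLike.star_def, Complex.conj_ofReal, if_true]
    push_cast
    refine Finset.sum_congr rfl fun k _ => ?_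
    rw [← Complex.ofReal_mul, Real.mul_self_sqrt (hy k)]
  rw [e, trF_diag]
  simp

theorem XX_psd {P Q : Matrix m m ℂ} (hP : P.PosSemidef) (hQ : Q.PosSemidef) {be : ι → ℝ}
    (hbe : ∀ j, 0 ≤ be j) (y : ι → ℝ) : (XX P Q be y).PosSemidef :=
  (hP.kronecker (phiM_psd y)).add (hQ.kronecker (dgc_psd hbe))

theorem cont_XX (P Q : Matrix m m ℂ) (be : ι → ℝ) : Continuous fun y : ι → ℝ => XX P Q be y := by
  refine continuous_matrix fun a b => ?_
  obtain ⟨a1, a2⟩ := a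
  obtain ⟨b1, b2⟩ := b
  simp only [XX, Matrix.add_apply, Matrix.kroneckerMap_apply, phiM, Matrix.of_apply]
  fun_prop

theorem cont_hPQ {p : ℝ} (hp : 0 ≤ p) {P Q : Matrix m m ℂ} (hP : P.PosSemidef)
    (hQ : Q.PosSemidef) {be : ι → ℝ} (hbe : ∀ j, 0 ≤ be j) :
    Continuous fun y : ι → ℝ => hPQ p P Q be y :=
  Pool.Agent.GC.trF_cont _ (Real.continuous_rpow_const hp) (cont_XX P Q be) fun y => (XX_psd hP hQ hbe y).1

/-- `tp` is monotone -/
theorem tp_mono {p : ℝ} (hp : 1 ≤ p) {X Y : Matrix m m ℂ} (hX : X.PosSemidef)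
    (hXY : (Y - X).PosSemidef) : tp p X ≤ tp p Y := by
  have hY : Y.PosSemidef := by
    have := hX.add hXY
    rwa [add_sub_cancel] at this
  have e : ∀ {Z : Matrix m m ℂ}, Z.PosSemidef → tp p Z = trF (fun x => (max x 0) ^ p) Z := by
    intro Z hZ
    unfold tp trF
    rw [dif_pos hZ.1, dif_pos hZ.1]
    refine Finset.sum_congr rfl fun i _ => ?_
    show hZ.1.eigenvalues i ^ p = (max (hZ.1.eigenvalues i) 0) ^ p
    rw [max_eq_left (hZ.eigenvalues_nonneg i)]
  rw [e hX, e hY]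
  exact Pool.Agent.Lib_helper13.GC34.trF_mono (Pool.Agent.Lib_helper13.GC34.convexOn_posPow hp)
    (Pool.Agent.Lib_helper13.GC34.monotone_posPow (by linarith)) hX.1 hY.1 hXY

theorem hPQ_lower {p : ℝ} (hp : 1 ≤ p) {P Q : Matrix m m ℂ} (hP : P.PosSemidef)
    (hQ : Q.PosSemidef) {be : ι → ℝ} (hbe : ∀ j, 0 ≤ be j) {y : ι → ℝ} (hy : ∀ j, 0 ≤ y j) :
    tp p P * (∑ j, y j) ^ p ≤ hPQ p P Q be y := by
  rw [← tp_phiM (by linarith) hy, ← Pool.Agent.Lib_helper49.GC34.trF_kron p hP (phiM_psd y)]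
  refine tp_mono hp (hP.kronecker (phiM_psd y)) ?_
  have e : XX P Q be y - P ⊗ₖ phiM y = Q ⊗ₖ Matrix.diagonal (fun j => (be j : ℂ)) := by
    unfold XX; abel
  rw [e]
  exact hQ.kronecker (dgc_psd hbe)

/-- `Tr (c φφᵀ + diag be)^p` -/
noncomputable def tc (p c : ℝ) (be y : ι → ℝ) : ℝ :=
  tp p (Matrix.diagonal (fun j => (be j : ℂ)) + (c : ℂ) • phiM y)

/-- the 1x1 matrix -/
noncomputable def one1 (c : ℝ) : Matrix Unit Unit ℂ := (c : ℂ) • (1 : Matrix Unit Unit ℂ)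

theorem tc_eq_hPQ (p c : ℝ) (be y : ι → ℝ) : tc p c be y = hPQ p (one1 c) (one1 1) be y := by
  unfold tc hPQ tp
  rw [← trF_reindex _ (Equiv.punitProd ι).symm]
  congr 1
  ext a b
  obtain ⟨a1, a2⟩ := a
  obtain ⟨b1, b2⟩ := b
  simp [XX, one1, Matrix.kroneckerMap_apply, Matrix.reindex_apply, Matrix.submatrix_apply,
    Matrix.one_apply, add_comm, Equiv.punitProd]

theorem sum_rpow_le {κ : Type} (s : Finset κ) {x : κ → ℝ} (hx : ∀ i, 0 ≤ x i) {p : ℝ}
    (hp : 1 ≤ p) : ∑ i ∈ s, x i ^ p ≤ (∑ i ∈ s, x i) ^ p := by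
  have hS : 0 ≤ ∑ i ∈ s, x i := Finset.sum_nonneg fun i _ => hx i
  rcases hS.eq_or_lt with h0 | h0
  · have hz : ∀ i ∈ s, x i = 0 := (Finset.sum_eq_zero_iff_of_nonneg fun i _ => hx i).1 h0.symm
    rw [← h0, Real.zero_rpow (by linarith)]
    refine le_of_eq (Finset.sum_eq_zero fun i hi => ?_)
    rw [hz i hi, Real.zero_rpow (by linarith)]
  · have key : ∀ i ∈ s, x i ^ p ≤ x i * (∑ i ∈ s, x i) ^ (p - 1) := by
      intro i hi
      have h1 : x i ≤ ∑ i ∈ s, x i := Finset.single_le_sum (fun j _ => hx j) hi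
      rcases (hx i).eq_or_lt with h2 | h2
      · rw [← h2, Real.zero_rpow (by linarith)]; simp
      · have e : x i ^ p = x i * x i ^ (p - 1) := by
          rw [← Real.rpow_one_add' h2.le (by linarith)]; congr 1; ring
        rw [e]
        exact mul_le_mul_of_nonneg_left (Real.rpow_le_rpow h2.le h1 (by linarith)) h2.le
    refine (Finset.sum_le_sum key).trans (le_of_eq ?_)
    rw [← Finset.sum_mul, ← Real.rpow_one_add' h0.le (by linarith)]
    congr 1; ring

theorem tp_le_trace {p : ℝ} (hp : 1 ≤ p) {Y : Matrix m m ℂ} (hY : Y.PosSemidef) :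
    tp p Y ≤ (Y.trace.re) ^ p := by
  have e : Y.trace.re = ∑ i, hY.1.eigenvalues i := by
    rw [hY.1.trace_eq_sum_eigenvalues]
    simp
  unfold tp trF
  rw [dif_pos hY.1, e]
  exact sum_rpow_le _ (fun i => hY.eigenvalues_nonneg i) hp

theorem scal_tangent {p x y : ℝ} (hp : 1 ≤ p) (hx : 0 ≤ x) (hy : 0 < y) :
    y ^ p + p * y ^ (p - 1) * (x - y) ≤ x ^ p := by
  have h1 : (-1 : ℝ) ≤ (x - y) / y := by
    rw [le_div_iff₀ hy]
    linarith
  have h2 := one_add_mul_self_le_rpow_one_add h1 hp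
  have e1 : 1 + (x - y) / y = x / y := by field_simp; ring
  rw [e1, Real.div_rpow hx hy.le, le_div_iff₀ (Real.rpow_pos_of_pos hy p)] at h2
  have e2 : y ^ p = y ^ (p - 1) * y := by
    rw [← Real.rpow_add_one hy.ne']
    congr 1
    ring
  calc y ^ p + p * y ^ (p - 1) * (x - y) = (1 + p * ((x - y) / y)) * y ^ p := by
        rw [e2]; field_simp
    _ ≤ x ^ p := h2

theorem scal_growth {p c b : ℝ} (hp : 1 < p) (hc : 0 ≤ c) (hb : 0 ≤ b) {S : ℝ} (hS : 0 ≤ S) :
    (c * S + b) ^ p ≤ c ^ p * S ^ p + p * b * (c + b) ^ (p - 1) * (1 + S) ^ (p - 1) := by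
  have hx : 0 ≤ c * S := mul_nonneg hc hS
  rcases (add_nonneg hx hb).eq_or_lt with h0 | h0
  · rw [← h0, Real.zero_rpow (by linarith)]
    positivity
  · have h1 := scal_tangent hp.le hx h0
    have h2 : (c * S + b) ^ (p - 1) ≤ (c + b) ^ (p - 1) * (1 + S) ^ (p - 1) := by
      rw [← Real.mul_rpow (by linarith) (by linarith)]
      exact Real.rpow_le_rpow h0.le (by nlinarith) (by linarith)
    have h3 : p * (c * S + b) ^ (p - 1) * (c * S - (c * S + b)) =
        -(p * b * (c * S + b) ^ (p - 1)) := by ring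
    have h4 : p * b * (c * S + b) ^ (p - 1) ≤
        p * b * ((c + b) ^ (p - 1) * (1 + S) ^ (p - 1)) :=
      mul_le_mul_of_nonneg_left h2 (by positivity)
    rw [Real.mul_rpow hc hS] at h1
    rw [h3] at h1
    linarith [mul_assoc (p * b) ((c + b) ^ (p - 1)) ((1 + S) ^ (p - 1))]

theorem tc_bounds {p c : ℝ} (hp : 1 < p) (hc : 0 ≤ c) {be : ι → ℝ} (hbe : ∀ j, 0 ≤ be j)
    {y : ι → ℝ} (hy : ∀ j, 0 ≤ y j) :
    c ^ p * (∑ j, y j) ^ p ≤ tc p c be y ∧
    tc p c be y ≤ c ^ p * (∑ j, y j) ^ p +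
      p * (∑ j, be j) * (c + ∑ j, be j) ^ (p - 1) * (1 + ∑ j, y j) ^ (p - 1) := by
  have hS : 0 ≤ ∑ j, y j := Finset.sum_nonneg fun j _ => hy j
  have hB : 0 ≤ ∑ j, be j := Finset.sum_nonneg fun j _ => hbe j
  have hcp : ((c : ℂ) • phiM y).PosSemidef := Pool.Agent.Lib_helper19.QS.psd_smul (phiM_psd y) hc
  constructor
  · rw [← Real.mul_rpow hc hS]
    have h1 := tp_mono (p := p) hp.le hcp (Y := Matrix.diagonal (fun j => (be j : ℂ)) +
      (c : ℂ) • phiM y) (by rw [add_sub_cancel_right]; exact dgc_psd hbe)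
    refine le_trans (le_of_eq ?_) h1
    rw [tp_smul (phiM_psd y) hc, tp_phiM (by linarith) hy, Real.mul_rpow hc hS]
  · refine (tp_le_trace hp.le ((dgc_psd hbe).add hcp)).trans ?_
    have e : (Matrix.diagonal (fun j => (be j : ℂ)) + (c : ℂ) • phiM y).trace.re =
        c * (∑ j, y j) + ∑ j, be j := by
      rw [Matrix.trace_add, Matrix.trace_smul, Matrix.trace_diagonal]
      have e2 : (phiM y).trace = ((∑ j, y j : ℝ) : ℂ) := by
        unfold Matrix.trace
        push_cast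
        refine Finset.sum_congr rfl fun k _ => ?_
        simp only [Matrix.diag_apply, phiM, Matrix.of_apply]
        rw [Real.mul_self_sqrt (hy k)]
      rw [e2]
      have e3 : (∑ j, (be j : ℂ)) = ((∑ j, be j : ℝ) : ℂ) := by push_cast; rfl
      rw [e3, smul_eq_mul, ← Complex.ofReal_mul, ← Complex.ofReal_add, Complex.ofReal_re]
      ring
    rw [e]
    exact scal_growth hp hc hB hS

end Pool.Agent.OPS
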