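import Pool.Agent.Lib_helper64.OPS.Glue

/-!
# MP_859019, one pure state: the step of the maximum principle for strict first pairs
-/

set_option autoImplicit false
set_option linter.unusedSectionVars false

open scoped BigOperators ComplexOrder Kronecker MatrixOrder Topology
open MeasureTheory Set Matrix Filter

namespace Pool.Agent.OPS

open Pool.Agent.RC Pool.Agent.LDK Pool.Agent.LDK.DUAL Pool.Agent.QB Pool.Agent.OP

variable {m κ : Type} [Fintype m] [DecidableEq m] [Fintype κ] [DecidableEq κ]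

theorem psdPair_of_strict {A D : Matrix m m ℂ} (ha : (A + D).PosSemidef)
    (hb : (A - D).PosSemidef) : IsPsdPair A D := by
  refine ⟨?_, hb, ha⟩
  have e : A = ((1 / 2 : ℝ) : ℂ) • ((A + D) + (A - D)) := by push_cast; module
  rw [e]
  exact Pool.Agent.Lib_helper19.QS.psd_smul (ha.add hb) (by norm_num)

/-- the step for one first pair (general operator inequality) -/
theorem strictStep_of {p : ℝ} (hp : 3 < p) (hDer : DerTarget) {A₁ D₁ : Matrix m m ℂ}
    (h₁ : IsPsdPair A₁ D₁)
    (hop : ∀ (n : ℕ) (be : Fin (n + 1) → ℝ) (lam : ℝ), be 0 = 0 → (∀ j, j ≠ 0 → 0 < be j) →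
      0 < lam → OpOK p ((A₁ + D₁) + (lam : ℂ) • (A₁ - D₁)) (A₁ - D₁) be 0 ∧
        OpOK p ((A₁ - D₁) + (lam : ℂ) • (A₁ + D₁)) (A₁ + D₁) be 0) :
    StrictStep p A₁ D₁ := by
  intro n hf lam hl be hbe0 hbp y hy
  have hbn : ∀ j : Fin (n + 1), 0 ≤ be j := by
    intro j
    by_cases h : j = 0
    · rw [h, hbe0]
    · exact (hbp j h).le
  obtain ⟨o1, o2⟩ := hop n be lam hbe0 hbp hl
  exact step_strict hp hDer h₁ hbe0 hbp hl.le o1 o2 (hf lam hl.le be hbn) y hy

/-- the step for strict first pairs -/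
theorem strictStep {p : ℝ} (hp : 3 < p) (hDer : DerTarget) (hPos : PosTarget p)
    {A₁ D₁ : Matrix m m ℂ} (ha : (A₁ + D₁).PosDef) (hb : (A₁ - D₁).PosDef) :
    StrictStep p A₁ D₁ := by
  refine strictStep_of hp hDer (psdPair_of_strict ha.posSemidef hb.posSemidef) ?_
  intro n be lam h0 hbp hl
  exact ⟨opOK_of hDer (by linarith) hPos (ha.add_posSemidef
      (Pool.Agent.Lib_helper19.QS.psd_smul hb.posSemidef hl.le)) hb h0 hbp,
    opOK_of hDer (by linarith) hPos (hb.add_posSemidef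
      (Pool.Agent.Lib_helper19.QS.psd_smul ha.posSemidef hl.le)) ha h0 hbp⟩

end Pool.Agent.OPS
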